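import Pool.Agent.T2H39.UE.Trans
import Pool.Agent.Y199.DM.Emb

set_option autoImplicit false

/-! Rings of integers of finite extensions of `ℚ_p` and embeddings. -/

namespace Pool.Agent.T2H39.UE

open MvPolynomial Pool.Agent.H936R2

section

variable {p : ℕ} [hp : Fact p.Prime]

theorem int_of_norm {x : PadicAlgCl p} (hx : ‖x‖ ≤ 1) : IsIntegral ℤ_[p] x := by
  have hxF : IsIntegral ℚ_[p] x := Algebra.IsIntegral.isIntegral x
  have hm := minpoly.monic hxF
  have h1 : spectralValue (minpoly ℚ_[p] x) ≤ 1 := hx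
  rw [spectralValue_le_one_iff hm] at h1
  have h2 : minpoly ℚ_[p] x ∈ Polynomial.lifts (algebraMap ℤ_[p] ℚ_[p]) := by
    rw [Polynomial.lifts_iff_coeff_lifts]
    intro n
    exact ⟨⟨(minpoly ℚ_[p] x).coeff n, h1 n⟩, rfl⟩
  obtain ⟨Q, hQ1, -, hQ3⟩ := Polynomial.lifts_and_degree_eq_and_monic h2 hm
  refine ⟨Q, hQ3, ?_⟩
  rw [IsScalarTower.algebraMap_eq ℤ_[p] ℚ_[p] (PadicAlgCl p), ← Polynomial.eval₂_map, hQ1]
  exact minpoly.aeval ℚ_[p] x

theorem norm_of_int {a : PadicAlgCl p} (ha : IsIntegral ℤ_[p] a) : ‖a‖ ≤ 1 := by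
  have hm := minpoly.monic ha.tower_top (A := ℚ_[p])
  have h1 : spectralValue (minpoly ℚ_[p] a) ≤ 1 := by
    rw [spectralValue_le_one_iff hm]
    intro n
    rw [minpoly.isIntegrallyClosed_eq_field_fractions' ℚ_[p] ha, Polynomial.coeff_map]
    exact ((minpoly ℤ_[p] a).coeff n).2
  exact h1

variable (E : IntermediateField ℚ_[p] (PadicAlgCl p)) [FiniteDimensional ℚ_[p] E]

/-- **The uniform return property of the integers of a `p`-adic field.** -/
theorem fam_integers (ν : Type) [Fintype ν] [DecidableEq ν] :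
    FamProp (integralClosure ℤ_[p] E) ν := by
  haveI htow : IsScalarTower ℤ_[p] E (PadicAlgCl p) :=
    IsScalarTower.of_algebraMap_eq (fun x => rfl)
  haveI htf : Module.IsTorsionFree ℤ_[p] E := by
    rw [Module.isTorsionFree_iff_algebraMap_injective, IsScalarTower.algebraMap_eq ℤ_[p] ℚ_[p] E]
    exact (algebraMap ℚ_[p] E).injective.comp (IsFractionRing.injective ℤ_[p] ℚ_[p])
  haveI : IsIntegralClosure (integralClosure ℤ_[p] E) ℤ_[p] E :=
    integralClosure.isIntegralClosure ℤ_[p] E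
  haveI hfree : Module.Free ℤ_[p] (integralClosure ℤ_[p] E) :=
    IsIntegralClosure.module_free ℤ_[p] ℚ_[p] E (integralClosure ℤ_[p] E)
  haveI hfin : Module.Finite ℤ_[p] (integralClosure ℤ_[p] E) :=
    IsIntegralClosure.finite ℤ_[p] ℚ_[p] E (integralClosure ℤ_[p] E)
  haveI hno : IsNoetherianRing (integralClosure ℤ_[p] E) := IsNoetherianRing.of_finite ℤ_[p] _
  haveI hq : Finite (integralClosure ℤ_[p] E ⧸
      Ideal.span {((p : ℕ) : integralClosure ℤ_[p] E) ^ 4}) := by
    let b := Module.finBasis ℤ_[p] (integralClosure ℤ_[p] E)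
    refine Finite.of_surjective (α := Fin (Module.finrank ℤ_[p] (integralClosure ℤ_[p] E)) →
      Fin (p ^ 4)) (fun c => Ideal.Quotient.mk _ (∑ t, ((c t : ℕ) : ℤ_[p]) • b t)) ?_
    intro y
    obtain ⟨x, rfl⟩ := Ideal.Quotient.mk_surjective y
    refine ⟨fun t => ⟨(b.repr x t).appr 4, PadicInt.appr_lt _ _⟩, ?_⟩
    rw [Ideal.Quotient.eq]
    have h1 : ∀ t, ∃ u : ℤ_[p], b.repr x t - (((b.repr x t).appr 4 : ℕ) : ℤ_[p]) =
        (p : ℤ_[p]) ^ 4 * u := by
      intro t
      have h2 := PadicInt.appr_spec 4 (b.repr x t)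
      rw [Ideal.mem_span_singleton] at h2
      exact h2
    choose u hu using h1
    rw [Ideal.mem_span_singleton]
    refine ⟨- ∑ t, u t • b t, ?_⟩
    have h3 : x = ∑ t, b.repr x t • b t := (b.sum_repr x).symm
    have h4 : x = ∑ t, ((((b.repr x t).appr 4 : ℕ) : ℤ_[p]) • b t + (p : ℤ_[p]) ^ 4 • (u t • b t)) := by
      conv_lhs => rw [h3]
      refine Finset.sum_congr rfl fun t _ => ?_
      rw [smul_smul, ← hu t, ← add_smul]
      congr 1
      ring
    rw [Finset.sum_add_distrib, ← Finset.smul_sum] at h4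
    have h5 : (p : ℤ_[p]) ^ 4 • (∑ t, u t • b t) =
        ((p : ℕ) : integralClosure ℤ_[p] E) ^ 4 * ∑ t, u t • b t := by
      rw [Algebra.smul_def, map_pow, map_natCast]
    rw [h5] at h4
    have h6 : (∑ t, (((b.repr x t).appr 4 : ℕ) : ℤ_[p]) • b t) =
        x - ((p : ℕ) : integralClosure ℤ_[p] E) ^ 4 * ∑ t, u t • b t := by
      rw [eq_sub_iff_add_eq]
      exact h4.symm
    simp only
    rw [h6]
    ring
  let j : integralClosure ℤ_[p] E →+* PadicAlgCl p :=
    (algebraMap E (PadicAlgCl p)).comp (algebraMap (integralClosure ℤ_[p] E) E)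
  intro Ex
  refine family p (PadicAlgCl p) j (fun x => ?_) ?_ (norm_p_lt_one p) Ex
  · have h9 : IsIntegral ℤ_[p] ((x : integralClosure ℤ_[p] E) : E) := x.2
    exact norm_of_int (h9.algebraMap (B := PadicAlgCl p))
  · exact (algebraMap E (PadicAlgCl p)).injective.comp Subtype.val_injective

end

/-- The uniform return property of a subring of `ℂ` whose elements are integers of a `p`-adic
field. -/
theorem fam_subring {p : ℕ} [Fact p.Prime] (E : IntermediateField ℚ_[p] (PadicAlgCl p))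
    [FiniteDimensional ℚ_[p] E] (τ : ℂ →+* PadicAlgCl p) (R : Subring ℂ)
    (hR : ∀ z ∈ R, τ z ∈ E ∧ ‖τ z‖ ≤ 1) (ν : Type) [Fintype ν] [DecidableEq ν] : FamProp R ν := by
  haveI htow : IsScalarTower ℤ_[p] E (PadicAlgCl p) :=
    IsScalarTower.of_algebraMap_eq (fun x => rfl)
  let φ₁ : R →+* E := (τ.comp R.subtype).codRestrict E.toSubfield.toSubring
    (fun z => (hR z z.2).1)
  have h1 : ∀ z : R, φ₁ z ∈ integralClosure ℤ_[p] E := by
    intro z
    have h2 : IsIntegral ℤ_[p] (algebraMap E (PadicAlgCl p) (φ₁ z)) := int_of_norm (hR z z.2).2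
    exact (isIntegral_algebraMap_iff (algebraMap E (PadicAlgCl p)).injective).1 h2
  let φ : R →+* integralClosure ℤ_[p] E :=
    φ₁.codRestrict (integralClosure ℤ_[p] E).toSubring h1
  refine (fam_integers E ν).of_injective φ ?_
  intro x y hxy
  have h2 : τ (x : ℂ) = τ (y : ℂ) :=
    congrArg (fun z : integralClosure ℤ_[p] E => (((z : E)) : PadicAlgCl p)) hxy
  exact Subtype.ext (τ.injective h2)

/-- finitely generated rings -/
theorem exists_integral (s : Finset ℂ) : ∃ (p : ℕ) (_ : Fact p.Prime)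
    (E : IntermediateField ℚ_[p] (PadicAlgCl p)) (_ : FiniteDimensional ℚ_[p] E)
    (τ : ℂ →+* PadicAlgCl p), ∀ z ∈ Subring.closure (s : Set ℂ), τ z ∈ E ∧ ‖τ z‖ ≤ 1 := by
  classical
  obtain ⟨m, y, hy, -, D, hD⟩ := Pool.Agent.Y199.DM.exists_noether s
  obtain ⟨p, hp1, hp2⟩ := Nat.exists_infinite_primes (D + 1)
  haveI : Fact p.Prime := ⟨hp2⟩
  obtain ⟨τ, hτ⟩ := Pool.Agent.TH838.PS.emb_near p y hy (fun _ => 0) (fun _ => isAlgebraic_zero)
  have hs : ∀ x ∈ s, ‖τ x‖ ≤ 1 := hD p (by omega) τ fun j => by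
    have h1 := hτ j
    rw [sub_zero] at h1
    exact h1.le
  refine ⟨p, inferInstance, IntermediateField.adjoin ℚ_[p] (τ '' (s : Set ℂ)), ?_, τ, ?_⟩
  · haveI : Finite (τ '' (s : Set ℂ)) := (s.finite_toSet.image τ).to_subtype
    exact IntermediateField.finiteDimensional_adjoin
      fun x _ => (Algebra.IsAlgebraic.isAlgebraic x).isIntegral
  · have h1 : Subring.closure (s : Set ℂ) ≤
        ((IntermediateField.adjoin ℚ_[p] (τ '' (s : Set ℂ))).toSubfield.toSubring ⊓
          unitBall (PadicAlgCl p)).comap τ := by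
      rw [Subring.closure_le]
      intro x hx
      exact ⟨IntermediateField.subset_adjoin _ _ ⟨x, hx, rfl⟩, hs x hx⟩
    intro z hz
    exact h1 hz

end Pool.Agent.T2H39.UE
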