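import Pool.Agent.T2H39.UE.Uni

set_option autoImplicit false

/-! The universal family of the polynomial maps with given exponents. -/

namespace Pool.Agent.T2H39.UE

open MvPolynomial Pool.Agent.H936R2

variable {ν κ : Type} [Fintype ν] [DecidableEq ν] [Fintype κ] [DecidableEq κ]
  {O : Type} [CommRing O]

/-- specialisation of the parameters -/
noncomputable def spec (c : κ → O) : MvPolynomial (κ ⊕ ν) O →ₐ[O] MvPolynomial ν O :=
  aeval (Sum.elim (fun k => C (c k)) X)

omit [Fintype ν] [DecidableEq ν] [Fintype κ] [DecidableEq κ] in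
theorem eval_aeval' {σ : Type} (G : σ → MvPolynomial ν O) (x : ν → O) (Q : MvPolynomial σ O) :
    eval x (aeval G Q) = eval (fun i => eval x (G i)) Q := by
  induction Q using MvPolynomial.induction_on with
  | C a => simp
  | add p q hp hq => rw [map_add, map_add, hp, hq, map_add]
  | mul_X p i hp => rw [map_mul, map_mul, hp, map_mul, aeval_X, eval_X]

omit [Fintype ν] [DecidableEq ν] [Fintype κ] [DecidableEq κ] in
theorem eval_spec (c : κ → O) (x : ν → O) (P : MvPolynomial (κ ⊕ ν) O) :
    eval x (spec c P) = eval (Sum.elim c x) P := by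
  rw [spec, eval_aeval']
  refine congrArg (fun y => eval y P) ?_
  funext i
  rcases i with k | i <;> simp

omit [Fintype ν] [Fintype κ] in
theorem pderiv_spec (c : κ → O) (j : ν) (P : MvPolynomial (κ ⊕ ν) O) :
    pderiv j (spec c P) = spec c (pderiv (Sum.inr j) P) := by
  induction P using MvPolynomial.induction_on with
  | C a => simp [spec]
  | add p q hp hq => rw [map_add, map_add, hp, hq, map_add, map_add]
  | mul_X p i hp =>
    rw [map_mul, Derivation.leibniz, Derivation.leibniz, hp]
    simp only [smul_eq_mul, map_add, map_mul]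
    congr 2
    rcases i with k | i
    · rw [pderiv_X_of_ne (by simp), map_zero]
      simp [spec]
    · by_cases h : i = j
      · subst h
        rw [pderiv_X_self, map_one]
        simp [spec]
      · rw [pderiv_X_of_ne (by simpa using h), map_zero]
        simp only [spec, aeval_X, Sum.elim_inr]
        rw [pderiv_X_of_ne h]

section fixed

variable (F : κ ⊕ ν → MvPolynomial (κ ⊕ ν) O) (hF : ∀ k, F (Sum.inl k) = X (Sum.inl k))
include hF

omit [Fintype ν] [DecidableEq ν] [Fintype κ] [DecidableEq κ] in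
theorem pt_fixed (c : κ → O) (x : ν → O) :
    pt F (Sum.elim c x) = Sum.elim c (pt (fun i => spec c (F (Sum.inr i))) x) := by
  funext i
  rcases i with k | i
  · simp [pt, hF]
  · simp only [pt, Sum.elim_inr]
    rw [eval_spec]

omit [Fintype ν] [DecidableEq ν] [Fintype κ] [DecidableEq κ] in
theorem pt_fixed_iterate (c : κ → O) (x : ν → O) (n : ℕ) :
    (pt F)^[n] (Sum.elim c x) = Sum.elim c ((pt (fun i => spec c (F (Sum.inr i))))^[n] x) := by
  induction n with
  | zero => rfl
  | succ n ih =>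
    rw [Function.iterate_succ_apply', ih, pt_fixed F hF, Function.iterate_succ_apply']

theorem det_fixed (c : κ → O) (x : ν → O) :
    (jac F (Sum.elim c x)).det = (jac (fun i => spec c (F (Sum.inr i))) x).det := by
  have h1 : jac F (Sum.elim c x) = Matrix.fromBlocks 1 0
      (Matrix.of fun i k => eval (Sum.elim c x) (pderiv (Sum.inl k) (F (Sum.inr i))))
      (jac (fun i => spec c (F (Sum.inr i))) x) := by
    ext i j
    rcases i with k | i <;> rcases j with l | j
    · simp only [jac, hF, Matrix.fromBlocks_apply₁₁]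
      by_cases h : k = l
      · subst h
        rw [pderiv_X_self, map_one, Matrix.one_apply_eq]
      · rw [pderiv_X_of_ne (by simpa using h), map_zero, Matrix.one_apply_ne h]
    · simp only [jac, hF, Matrix.fromBlocks_apply₁₂]
      rw [pderiv_X_of_ne (by simp), map_zero, Matrix.zero_apply]
    · simp only [jac, Matrix.fromBlocks_apply₂₁, Matrix.of_apply]
    · simp only [jac, Matrix.fromBlocks_apply₂₂]
      rw [pderiv_spec, eval_spec]
  rw [h1, Matrix.det_fromBlocks_zero₁₂, Matrix.det_one, one_mul]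

end fixed

/-- the universal map -/
noncomputable def univ (O : Type) [CommRing O] (E : Finset (ν →₀ ℕ)) :
    ((ν × E) ⊕ ν) → MvPolynomial ((ν × E) ⊕ ν) O
  | Sum.inl k => X (Sum.inl k)
  | Sum.inr i => ∑ e : E, X (Sum.inl (i, e)) * rename Sum.inr (monomial (e : ν →₀ ℕ) 1)

omit [Fintype ν] [DecidableEq ν] in
theorem sum_coeff (E : Finset (ν →₀ ℕ)) (f : MvPolynomial ν O) (hf : f.support ⊆ E) :
    ∑ e : E, monomial (e : ν →₀ ℕ) (f.coeff e) = f := by
  conv_rhs => rw [f.as_sum]
  rw [Finset.sum_coe_sort E (fun e => monomial e (f.coeff e))]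
  refine (Finset.sum_subset hf fun e _ he => ?_).symm
  rw [notMem_support_iff.1 he, map_zero]

omit [Fintype ν] [DecidableEq ν] in
theorem spec_univ (E : Finset (ν →₀ ℕ)) (f : ν → MvPolynomial ν O) (hf : ∀ i, (f i).support ⊆ E)
    (i : ν) : spec (fun k : ν × E => (f k.1).coeff k.2) (univ O E (Sum.inr i)) = f i := by
  conv_rhs => rw [← sum_coeff E (f i) (hf i)]
  simp only [univ, map_sum, map_mul]
  refine Finset.sum_congr rfl fun e _ => ?_
  rw [spec, aeval_X, aeval_rename]
  simp only [Sum.elim_inl]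
  have h1 : (Sum.elim (fun k : ν × E => C ((f k.1).coeff k.2)) X ∘ Sum.inr :
      ν → MvPolynomial ν O) = X := by
    funext i
    rfl
  rw [h1, aeval_X_left, AlgHom.id_apply, C_mul_monomial, mul_one]

/-- **The uniform return theorem for all étale orbits of all maps with given exponents.** -/
theorem family [IsNoetherianRing O] (p : ℕ) [hp : Fact p.Prime]
    [Finite (O ⧸ Ideal.span {(p : O) ^ 4})]
    (K : Type) [NormedField K] [IsUltrametricDist K] [CharZero K] (j : O →+* K)
    (hj : ∀ x, ‖j x‖ ≤ 1) (hinj : Function.Injective j) (hpK : ‖(p : K)‖ < 1)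
    (E : Finset (ν →₀ ℕ)) :
    ∃ N0 L : ℕ, 0 < L ∧ ∀ E' : Finset (ν →₀ ℕ), ∃ M : ℕ,
      ∀ f : ν → MvPolynomial ν O, (∀ i, (f i).support ⊆ E) → ∀ a : ν → O,
        (∃ n1, ∀ n, n1 ≤ n → IsUnit (jac f ((pt f)^[n] a)).det) →
        ∀ n, N0 ≤ n → ∀ g : MvPolynomial ν O, g.support ⊆ E' →
          (∀ t, eval ((pt f)^[n + L * t] a) g = 0) ∨
          ∀ Z : Finset ℕ, (∀ t ∈ Z, eval ((pt f)^[n + L * t] a) g = 0) → Z.card ≤ M := by
  classical
  obtain ⟨N0, L, hL, h⟩ := one_map p K j hj hinj hpK (univ O E)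
  refine ⟨N0, L, hL, fun E' => ?_⟩
  obtain ⟨M, hM⟩ := h E' (∑ e : E', rename Sum.inr (monomial (e : ν →₀ ℕ) (X e)))
  refine ⟨M, fun f hf a ha n hn g hg => ?_⟩
  have hF : ∀ k, univ O E (Sum.inl k) = X (Sum.inl k) := fun k => rfl
  have hspec : (fun i => spec (fun k : ν × E => (f k.1).coeff k.2) (univ O E (Sum.inr i))) = f :=
    funext (spec_univ E f hf)
  have hit : ∀ m, (pt (univ O E))^[m] (Sum.elim (fun k : ν × E => (f k.1).coeff k.2) a) =
      Sum.elim (fun k : ν × E => (f k.1).coeff k.2) ((pt f)^[m] a) := by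
    intro m
    rw [pt_fixed_iterate _ hF, hspec]
  have hQ : ∀ x : ν → O, eval₂ (eval fun e : E' => g.coeff e)
      (Sum.elim (fun k : ν × E => (f k.1).coeff k.2) x)
      (∑ e : E', rename Sum.inr (monomial (e : ν →₀ ℕ) (X e))) = eval x g := by
    intro x
    conv_rhs => rw [← sum_coeff E' g hg]
    rw [← coe_eval₂Hom, map_sum, map_sum]
    refine Finset.sum_congr rfl fun e _ => ?_
    rw [coe_eval₂Hom, eval₂_rename, eval₂_monomial, eval_monomial, eval_X]
    rfl
  have h1 := hM (Sum.elim (fun k : ν × E => (f k.1).coeff k.2) a) (by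
    obtain ⟨n1, hn1⟩ := ha
    refine ⟨n1, fun n hn => ?_⟩
    rw [hit, det_fixed _ hF, hspec]
    exact hn1 n hn) n hn (fun e : E' => g.coeff e)
  simp only [hit, hQ] at h1
  exact h1

end Pool.Agent.T2H39.UE
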