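import Pool.Agent.T2H39.UE.Zeros
import Pool.Agent.H936R2.Per

set_option autoImplicit false

/-! A uniform period for all étale orbits modulo a power of `p`. -/

namespace Pool.Agent.T2H39.UE

open MvPolynomial Pool.Agent.H936R2

/-- Self-maps of finite sets. -/
theorem finite_iterate {X : Type} [Finite X] (T : X → X) (x : X) (n : ℕ) (hn : Nat.card X ≤ n) :
    T^[(Nat.card X).factorial] (T^[n] x) = T^[n] x := by
  classical
  have : Fintype X := Fintype.ofFinite X
  obtain ⟨i, j, hij, he⟩ := Fintype.exists_ne_map_eq_of_card_lt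
    (fun i : Fin (Nat.card X + 1) => T^[(i : ℕ)] x) (by
      rw [Fintype.card_fin, Nat.card_eq_fintype_card]
      exact Nat.lt_succ_self _)
  wlog hlt : i < j generalizing i j
  · exact this j i (Ne.symm hij) he.symm (lt_of_le_of_ne (not_lt.1 hlt) (Ne.symm hij))
  have hlt' : (i : ℕ) < (j : ℕ) := hlt
  have hj : (j : ℕ) ≤ Nat.card X := Nat.lt_succ_iff.1 j.2
  have h1 : Function.IsPeriodicPt T ((j : ℕ) - (i : ℕ)) (T^[n] x) := by
    change T^[(j : ℕ) - (i : ℕ)] (T^[n] x) = T^[n] x
    rw [← Function.iterate_add_apply]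
    have e1 : (j : ℕ) - (i : ℕ) + n = (n - (i : ℕ)) + (j : ℕ) := by omega
    have e2 : n = (n - (i : ℕ)) + (i : ℕ) := by omega
    rw [e1, Function.iterate_add_apply, ← he, ← Function.iterate_add_apply, ← e2]
  have h2 : ((j : ℕ) - (i : ℕ)) ∣ (Nat.card X).factorial :=
    Nat.dvd_factorial (by omega) (by omega)
  exact h1.trans_dvd h2

variable {ι : Type} [Fintype ι] [DecidableEq ι]

/-- the extended map on points and matrices -/
noncomputable def ext {R : Type} [CommRing R] (F : ι → MvPolynomial ι R)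
    (z : (ι → R) × Matrix ι ι R) : (ι → R) × Matrix ι ι R :=
  (pt F z.1, jac F z.1 * z.2)

theorem ext_iterate {R : Type} [CommRing R] (F : ι → MvPolynomial ι R) (a : ι → R) (n : ℕ) :
    (ext F)^[n] (a, 1) = ((pt F)^[n] a, itA F a n) := by
  induction n with
  | zero => rfl
  | succ n ih =>
    rw [Function.iterate_succ_apply', Function.iterate_succ_apply', ih]
    rfl

/-- **Uniform period over a finite ring.** -/
theorem fin_period {R : Type} [CommRing R] [Finite R] (F : ι → MvPolynomial ι R) :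
    ∃ N0 L : ℕ, 0 < L ∧ ∀ a : ι → R,
      (∃ n1, ∀ n, n1 ≤ n → IsUnit (jac F ((pt F)^[n] a)).det) → ∀ n, N0 ≤ n →
        (pt F)^[L] ((pt F)^[n] a) = (pt F)^[n] a ∧ itA F ((pt F)^[n] a) L = 1 := by
  classical
  have hfin : Finite (Matrix ι ι R) := inferInstanceAs (Finite (ι → ι → R))
  set c := Nat.card ((ι → R) × Matrix ι ι R) with hc
  refine ⟨2 * c, c.factorial, Nat.factorial_pos _, ?_⟩
  rintro a ⟨n1, hn1⟩ n hn
  have hper : ∀ (b : ι → R) (m : ℕ), c ≤ m →
      (ext F)^[c.factorial] ((ext F)^[m] (b, 1)) = (ext F)^[m] (b, 1) := fun b m hm =>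
    finite_iterate (ext F) (b, 1) m hm
  have hper1 : ∀ (b : ι → R) (m : ℕ), c ≤ m →
      (pt F)^[c.factorial] ((pt F)^[m] b) = (pt F)^[m] b := by
    intro b m hm
    have h1 := hper b m hm
    rw [← Function.iterate_add_apply, ext_iterate, ext_iterate] at h1
    have h2 := congrArg Prod.fst h1
    simp only at h2
    rw [Function.iterate_add_apply] at h2
    exact h2
  have hunit : ∀ m, c ≤ m → IsUnit (jac F ((pt F)^[m] a)).det := by
    intro m hm
    have h1 : ∀ s : ℕ, (pt F)^[c.factorial * s] ((pt F)^[m] a) = (pt F)^[m] a := by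
      intro s
      have h2 : Function.IsPeriodicPt (pt F) c.factorial ((pt F)^[m] a) := hper1 a m hm
      exact h2.mul_const s
    have h3 := h1 n1
    rw [← h3, ← Function.iterate_add_apply]
    apply hn1
    have := Nat.factorial_pos c
    nlinarith
  refine ⟨hper1 a n (by omega), ?_⟩
  obtain ⟨m, rfl⟩ : ∃ m, n = c + m := ⟨n - c, by omega⟩
  set a' := (pt F)^[m] a with ha'
  have hu : ∀ k, IsUnit (jac F ((pt F)^[k] a')).det := by
    intro k
    rw [ha', ← Function.iterate_add_apply]
    exact hunit _ (by omega)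
  have h1 := hper a' c le_rfl
  rw [← Function.iterate_add_apply, ext_iterate, ext_iterate] at h1
  have h2 : itA F a' (c.factorial + c) = itA F a' c := congrArg Prod.snd h1
  rw [Nat.add_comm, itA_add] at h2
  have h3 : (pt F)^[c + m] a = (pt F)^[c] a' := by rw [ha', ← Function.iterate_add_apply]
  rw [h3]
  have h4 := isUnit_det_itA F a' hu c
  calc itA F ((pt F)^[c] a') c.factorial
      = itA F ((pt F)^[c] a') c.factorial * (itA F a' c * (itA F a' c)⁻¹) := by
        rw [Matrix.mul_nonsing_inv _ h4, Matrix.mul_one]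
    _ = itA F a' c * (itA F a' c)⁻¹ := by rw [← Matrix.mul_assoc, h2]
    _ = 1 := Matrix.mul_nonsing_inv _ h4

section map

variable {O R : Type} [CommRing O] [CommRing R] (ρ : O →+* R) (F : ι → MvPolynomial ι O)

omit [Fintype ι] [DecidableEq ι] in
theorem eval_map_apply (P : MvPolynomial ι O) (x : ι → O) :
    eval (fun i => ρ (x i)) (map ρ P) = ρ (eval x P) := by
  rw [eval_map, ← coe_eval₂Hom]
  induction P using MvPolynomial.induction_on with
  | C a => simp
  | add p q hp hq => rw [map_add, hp, hq, map_add, map_add]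
  | mul_X p i hp => rw [map_mul, hp, map_mul, map_mul]; simp

omit [Fintype ι] [DecidableEq ι] in
theorem pt_map (x : ι → O) :
    pt (fun i => map ρ (F i)) (fun i => ρ (x i)) = fun i => ρ (pt F x i) := by
  funext i
  exact eval_map_apply ρ (F i) x

omit [Fintype ι] [DecidableEq ι] in
theorem pt_map_iterate (x : ι → O) (n : ℕ) :
    (pt (fun i => map ρ (F i)))^[n] (fun i => ρ (x i)) = fun i => ρ ((pt F)^[n] x i) := by
  induction n with
  | zero => rfl
  | succ n ih =>
    rw [Function.iterate_succ_apply', ih, pt_map, Function.iterate_succ_apply']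

omit [DecidableEq ι] in
theorem jac_map (x : ι → O) :
    jac (fun i => map ρ (F i)) (fun i => ρ (x i)) = (jac F x).map ρ := by
  ext i j
  simp only [jac, Matrix.map_apply]
  rw [pderiv_map, eval_map_apply]

theorem itA_map (x : ι → O) (n : ℕ) :
    itA (fun i => map ρ (F i)) (fun i => ρ (x i)) n = (itA F x n).map ρ := by
  induction n with
  | zero => simp [itA]
  | succ n ih =>
    simp only [itA]
    rw [ih, pt_map_iterate, jac_map, Matrix.map_mul]

end map

/-- **Uniform period modulo `p ^ 4`.** -/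
theorem uniform_period {O : Type} [CommRing O] (p : ℕ) [Finite (O ⧸ Ideal.span {(p : O) ^ 4})]
    (F : ι → MvPolynomial ι O) :
    ∃ N0 L : ℕ, 0 < L ∧ ∀ a : ι → O,
      (∃ n1, ∀ n, n1 ≤ n → IsUnit (jac F ((pt F)^[n] a)).det) → ∀ n, N0 ≤ n →
        (∀ i, (p : O) ^ 4 ∣ (pt F)^[L] ((pt F)^[n] a) i - (pt F)^[n] a i) ∧
        (∀ i j, (p : O) ^ 4 ∣ itA F ((pt F)^[n] a) L i j - (1 : Matrix ι ι O) i j) := by
  classical
  set ρ := Ideal.Quotient.mk (Ideal.span {(p : O) ^ 4}) with hρ
  obtain ⟨N0, L, hL, h⟩ := fin_period (fun i => map ρ (F i))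
  refine ⟨N0, L, hL, ?_⟩
  rintro a ⟨n1, hn1⟩ n hn
  obtain ⟨h1, h2⟩ := h (fun i => ρ (a i)) ⟨n1, fun n hn => by
    rw [pt_map_iterate, jac_map, ← RingHom.mapMatrix_apply, ← RingHom.map_det]
    exact (hn1 n hn).map ρ⟩ n hn
  have hmem : ∀ x y : O, ρ x = ρ y → (p : O) ^ 4 ∣ x - y := by
    intro x y hxy
    rw [← Ideal.mem_span_singleton]
    exact Ideal.Quotient.eq.1 hxy
  rw [pt_map_iterate, pt_map_iterate] at h1
  rw [pt_map_iterate, itA_map] at h2
  refine ⟨fun i => hmem _ _ (congrFun h1 i), fun i j => hmem _ _ ?_⟩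
  have h3 := congrFun (congrFun h2 i) j
  rw [Matrix.map_apply] at h3
  rw [h3, Matrix.one_apply, Matrix.one_apply]
  split_ifs
  · rw [map_one]
  · rw [map_zero]

end Pool.Agent.T2H39.UE
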