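import Pool.Agent.T2H39.UE.Fam

set_option autoImplicit false

/-! From the uniform return theorem over a ring `R ⊆ ℂ`, for polynomials over `R`, to closed sets
over `ℂ`. -/

namespace Pool.Agent.T2H39.UE

open MvPolynomial Pool.Agent.H936R2

/-- The uniform return property of a ring. -/
def FamProp (R : Type) [CommRing R] (ν : Type) [Fintype ν] [DecidableEq ν] : Prop :=
  ∀ E : Finset (ν →₀ ℕ), ∃ N0 L : ℕ, 0 < L ∧ ∀ E' : Finset (ν →₀ ℕ), ∃ M : ℕ,
    ∀ f : ν → MvPolynomial ν R, (∀ i, (f i).support ⊆ E) → ∀ a : ν → R,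
      (∃ n1, ∀ n, n1 ≤ n → IsUnit (jac f ((pt f)^[n] a)).det) →
      ∀ n, N0 ≤ n → ∀ g : MvPolynomial ν R, g.support ⊆ E' →
        (∀ t, eval ((pt f)^[n + L * t] a) g = 0) ∨
        ∀ Z : Finset ℕ, (∀ t ∈ Z, eval ((pt f)^[n + L * t] a) g = 0) → Z.card ≤ M

theorem FamProp.of_injective {R O : Type} [CommRing R] [CommRing O] {ν : Type} [Fintype ν]
    [DecidableEq ν] (h : FamProp O ν) (φ : R →+* O) (hφ : Function.Injective φ) :
    FamProp R ν := by
  intro E
  obtain ⟨N0, L, hL, h⟩ := h E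
  refine ⟨N0, L, hL, fun E' => ?_⟩
  obtain ⟨M, hM⟩ := h E'
  refine ⟨M, fun f hf a ha n hn g hg => ?_⟩
  have h0 : ∀ m, eval (fun i => φ ((pt f)^[m] a i)) (map φ g) = 0 ↔ eval ((pt f)^[m] a) g = 0 := by
    intro m
    rw [eval_map_apply]
    exact map_eq_zero_iff φ hφ
  have h1 := hM (fun i => map φ (f i)) (fun i => (support_map_subset _ _).trans (hf i))
    (fun i => φ (a i)) (by
      obtain ⟨n1, hn1⟩ := ha
      refine ⟨n1, fun n hn => ?_⟩
      rw [pt_map_iterate, jac_map, ← RingHom.mapMatrix_apply, ← RingHom.map_det]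
      exact (hn1 n hn).map φ) n hn (map φ g) ((support_map_subset _ _).trans hg)
  simp only [pt_map_iterate, h0] at h1
  exact h1

/-- Combinatorial packaging. -/
theorem pack (Z : Set ℕ) (n0 L M : ℕ) (hL : 0 < L)
    (h : ∀ r, (∀ t, n0 + r + L * t ∈ Z) ∨
      ∀ W : Finset ℕ, (∀ t ∈ W, n0 + r + L * t ∈ Z) → W.card ≤ M) :
    ∃ T : Finset (ℕ × ℕ), T.card ≤ n0 + L + L * M ∧ (∀ q ∈ T, q.2 = 0 ∨ q.2 = L) ∧
      Z = {n | ∃ q ∈ T, ∃ k : ℕ, n = q.1 + q.2 * k} := by
  classical
  -- the finite sets of the exceptional elements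
  have hfin : ∀ r, ∃ W : Finset ℕ, W.card ≤ M ∧ ((∀ t, n0 + r + L * t ∈ Z) ∨
      ∀ t, n0 + r + L * t ∈ Z ↔ t ∈ W) := by
    intro r
    rcases h r with h1 | h1
    · exact ⟨∅, by simp, Or.inl h1⟩
    · have hf : {t : ℕ | n0 + r + L * t ∈ Z}.Finite := by
        by_contra hinf
        obtain ⟨W, hW, hWc⟩ := (Set.not_finite.1 hinf).exists_subset_card_eq (M + 1)
        have := h1 W (fun t ht => hW ht)
        omega
      refine ⟨hf.toFinset, h1 _ (fun t ht => by simpa using ht), Or.inr fun t => ?_⟩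
      simp
  choose W hW hWZ using hfin
  refine ⟨((Finset.range n0).filter (fun n => n ∈ Z)).image (fun n => (n, 0)) ∪
    ((Finset.range L).filter (fun r => ∀ t, n0 + r + L * t ∈ Z)).image (fun r => (n0 + r, L)) ∪
    ((Finset.range L).filter (fun r => ¬ ∀ t, n0 + r + L * t ∈ Z)).biUnion
      (fun r => (W r).image (fun t => (n0 + r + L * t, 0))), ?_, ?_, ?_⟩
  · refine (Finset.card_union_le _ _).trans ?_
    refine Nat.add_le_add ((Finset.card_union_le _ _).trans (Nat.add_le_add ?_ ?_)) ?_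
    · refine Finset.card_image_le.trans ((Finset.card_filter_le _ _).trans ?_)
      rw [Finset.card_range]
    · refine Finset.card_image_le.trans ((Finset.card_filter_le _ _).trans ?_)
      rw [Finset.card_range]
    · refine Finset.card_biUnion_le.trans ?_
      refine (Finset.sum_le_card_nsmul _ _ M fun r _ => Finset.card_image_le.trans (hW r)).trans ?_
      rw [smul_eq_mul]
      refine Nat.mul_le_mul_right M ((Finset.card_filter_le _ _).trans ?_)
      rw [Finset.card_range]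
  · intro q hq
    simp only [Finset.mem_union, Finset.mem_image, Finset.mem_biUnion] at hq
    rcases hq with (⟨n, -, rfl⟩ | ⟨r, -, rfl⟩) | ⟨r, -, t, -, rfl⟩
    · exact Or.inl rfl
    · exact Or.inr rfl
    · exact Or.inl rfl
  · ext n
    simp only [Set.mem_ofPred_eq, Finset.mem_union, Finset.mem_image, Finset.mem_biUnion,
      Finset.mem_filter, Finset.mem_range]
    constructor
    · intro hn
      by_cases hn0 : n < n0
      · exact ⟨(n, 0), Or.inl (Or.inl ⟨n, ⟨hn0, hn⟩, rfl⟩), 0, by simp⟩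
      · have hr : (n - n0) % L < L := Nat.mod_lt _ hL
        have hn' : n = n0 + (n - n0) % L + L * ((n - n0) / L) := by
          have := Nat.mod_add_div (n - n0) L
          omega
        by_cases hall : ∀ t, n0 + (n - n0) % L + L * t ∈ Z
        · exact ⟨(n0 + (n - n0) % L, L), Or.inl (Or.inr ⟨_, ⟨hr, hall⟩, rfl⟩), (n - n0) / L, hn'⟩
        · have hmem : (n - n0) / L ∈ W ((n - n0) % L) := by
            rcases hWZ ((n - n0) % L) with h1 | h1
            · exact absurd h1 hall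
            · rw [← h1, ← hn']
              exact hn
          exact ⟨(n, 0), Or.inr ⟨_, ⟨hr, hall⟩, _, hmem, by rw [← hn']⟩, 0, by simp⟩
    · rintro ⟨q, ((⟨m, ⟨-, hm⟩, rfl⟩ | ⟨r, ⟨-, hr⟩, rfl⟩) | ⟨r, ⟨-, hr⟩, t, ht, rfl⟩), k, rfl⟩
      · simpa using hm
      · exact hr k
      · simp only [Nat.zero_mul, Nat.add_zero]
        rcases hWZ r with h1 | h1
        · exact h1 t
        · exact (h1 t).2 ht

variable {N : ℕ}

/-- common denominators -/
theorem common_den (R : Subring ℂ) (K : Subfield ℂ) (hK : K = Subfield.closure (R : Set ℂ))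
    {X : Type} (s : Finset X) (x : X → K) :
    ∃ r : R, r ≠ 0 ∧ ∀ m ∈ s, ((r : ℂ) * (x m : ℂ)) ∈ R := by
  classical
  have h1 : ∀ m, ∃ z : R, z ≠ 0 ∧ ((z : ℂ) * (x m : ℂ)) ∈ R := by
    intro m
    have hx : (x m : ℂ) ∈ Subfield.closure (R : Set ℂ) := by
      rw [← hK]
      exact (x m).2
    obtain ⟨y, hy, z, hz, he⟩ := Subfield.mem_closure_iff.1 hx
    rw [Subring.closure_eq] at hy hz
    by_cases hz0 : z = 0
    · refine ⟨1, one_ne_zero, ?_⟩
      rw [← he, hz0, div_zero, mul_zero]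
      exact R.zero_mem
    · refine ⟨⟨z, hz⟩, fun h => hz0 (congrArg Subtype.val h), ?_⟩
      rw [← he, mul_div_cancel₀ _ hz0]
      exact hy
  choose z hz0 hz using h1
  refine ⟨∏ m ∈ s, z m, Finset.prod_ne_zero_iff.2 fun m _ => hz0 m, fun m hm => ?_⟩
  rw [← Finset.mul_prod_erase s z hm, mul_comm (z m)]
  push_cast
  rw [mul_assoc]
  exact R.mul_mem (by
    have : (((∏ i ∈ s.erase m, z i : R)) : ℂ) ∈ R := (∏ i ∈ s.erase m, z i : R).2
    simpa using this) (hz m)

/-- the value of a linear functional as the value of a polynomial over `R` -/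
theorem functional (R : Subring ℂ) (K : Subfield ℂ) (hK : K = Subfield.closure (R : Set ℂ))
    {ν : Type} [Fintype ν] (g : MvPolynomial ν ℂ) (ℓ : Module.Dual K ℂ) :
    ∃ g' : MvPolynomial ν R, g'.support ⊆ g.support ∧
      ∀ z : ν → R, eval z g' = 0 ↔ ℓ (eval (fun i => (z i : ℂ)) g) = 0 := by
  classical
  obtain ⟨r, hr0, hr⟩ := common_den R K hK g.support (fun m => ℓ (g.coeff m))
  let c : (ν →₀ ℕ) → R := fun m => if h : m ∈ g.support then ⟨_, hr m h⟩ else 0
  refine ⟨∑ m ∈ g.support, monomial m (c m), ?_, fun z => ?_⟩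
  · refine support_sum.trans ?_
    intro m hm
    rw [Finset.mem_biUnion] at hm
    obtain ⟨m', hm', hm⟩ := hm
    have := support_monomial_subset hm
    rw [Finset.mem_singleton] at this
    rwa [this]
  · have hzK : ∀ x : R, (x : ℂ) ∈ K := fun x => by
      rw [hK]
      exact Subfield.subset_closure x.2
    let zK : ν → K := fun i => ⟨z i, hzK _⟩
    have e1 : ((eval z (∑ m ∈ g.support, monomial m (c m)) : R) : ℂ) =
        (r : ℂ) * ((ℓ (eval (fun i => (z i : ℂ)) g) : K) : ℂ) := by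
      have e2 : eval (fun i => (z i : ℂ)) g =
          ∑ m ∈ g.support, (∏ i ∈ m.support, zK i ^ m i : K) • g.coeff m := by
        rw [eval_eq]
        refine Finset.sum_congr rfl fun m _ => ?_
        rw [mul_comm, Subfield.smul_def, smul_eq_mul]
        congr 1
        push_cast
        rfl
      rw [e2, map_sum, map_sum]
      push_cast
      rw [Finset.mul_sum]
      refine Finset.sum_congr rfl fun m hm => ?_
      rw [map_smul, eval_monomial, smul_eq_mul]
      have e3 : ((c m : R) : ℂ) = (r : ℂ) * ((ℓ (g.coeff m) : K) : ℂ) := by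
        simp only [c, dif_pos hm]
      push_cast
      rw [e3, Finsupp.prod]
      push_cast
      ring
    have hr0' : (r : ℂ) ≠ 0 := fun h => hr0 (Subtype.ext h)
    constructor
    · intro h
      rw [h] at e1
      have e2 : (r : ℂ) * ((ℓ (eval (fun i => (z i : ℂ)) g) : K) : ℂ) = 0 := by
        rw [← e1]
        rfl
      have e3 := (mul_eq_zero.1 e2).resolve_left hr0'
      exact Subtype.ext e3
    · intro h
      rw [h] at e1
      apply Subtype.ext
      rw [e1]
      simp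

/-- the exponents of the polynomials of bounded degree -/
theorem exists_box (N D : ℕ) : ∃ E : Finset (Fin N →₀ ℕ), ∀ g : MvPolynomial (Fin N) ℂ,
    g.totalDegree ≤ D → g.support ⊆ E := by
  classical
  refine ⟨Finset.Icc 0 (Finsupp.equivFunOnFinite.symm fun _ => D), fun g hg m hm => ?_⟩
  rw [Finset.mem_Icc]
  refine ⟨zero_le, fun i => ?_⟩
  simp only [Finsupp.equivFunOnFinite_symm_apply_apply]
  exact ((monomial_le_degreeOf i hm).trans (degreeOf_le_totalDegree g i)).trans hg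

/-- **From polynomials over `R` to all closed sets over `ℂ`.** -/
theorem uniform_of_fam (R : Subring ℂ) (N d : ℕ) (h : FamProp R (Fin N)) :
    ∃ L : ℕ, 0 < L ∧ ∀ D : ℕ, ∃ B : ℕ,
      ∀ f : Fin N → MvPolynomial (Fin N) ℂ, (∀ i, (f i).totalDegree ≤ d) →
        (∀ i m, (f i).coeff m ∈ R) → ∀ a : Fin N → ℂ, (∀ i, a i ∈ R) →
        (∃ n₁, ∀ n, n₁ ≤ n → ∃ y ∈ R, (jac f ((pt f)^[n] a)).det * y = 1) →
        ∀ S : Set (MvPolynomial (Fin N) ℂ), (∀ g ∈ S, g.totalDegree ≤ D) →
          ∃ T : Finset (ℕ × ℕ), T.card ≤ B ∧ (∀ q ∈ T, q.2 = 0 ∨ q.2 = L) ∧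
            {n : ℕ | ∀ g ∈ S, eval ((pt f)^[n] a) g = 0} =
              {n | ∃ q ∈ T, ∃ k : ℕ, n = q.1 + q.2 * k} := by
  classical
  obtain ⟨E, hE⟩ := exists_box N d
  obtain ⟨N0, L, hL, h⟩ := h E
  refine ⟨L, hL, fun D => ?_⟩
  obtain ⟨E', hE'⟩ := exists_box N D
  obtain ⟨M, hM⟩ := h E'
  refine ⟨N0 + L + L * M, ?_⟩
  intro f hfd hf a ha hu S hS
  -- the polynomials over `R`
  have hlift : ∀ i, ∃ P : MvPolynomial (Fin N) R, map R.subtype P = f i := by
    intro i
    have h1 : f i ∈ Set.range (map (σ := Fin N) R.subtype) := by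
      rw [MvPolynomial.mem_range_map_iff_coeffs_subset]
      intro x hx
      obtain ⟨m, hm, rfl⟩ := MvPolynomial.mem_coeffs_iff.1 hx
      exact ⟨⟨_, hf i m⟩, rfl⟩
    exact h1
  choose f' hf' using hlift
  let a' : Fin N → R := fun i => ⟨a i, ha i⟩
  have hfe : f = fun i => map R.subtype (f' i) := funext fun i => (hf' i).symm
  have hae : a = fun i => R.subtype (a' i) := rfl
  have hit : ∀ n, (pt f)^[n] a = fun i => ((((pt f')^[n] a' i) : R) : ℂ) := by
    intro n
    rw [hfe, hae, pt_map_iterate]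
    rfl
  have hsup : ∀ i, (f' i).support ⊆ E := by
    intro i
    rw [← support_map_of_injective (f' i) (f := R.subtype) Subtype.val_injective, hf']
    exact hE _ (hfd i)
  have hu' : ∃ n1, ∀ n, n1 ≤ n → IsUnit (jac f' ((pt f')^[n] a')).det := by
    obtain ⟨n1, hn1⟩ := hu
    refine ⟨n1, fun n hn => ?_⟩
    obtain ⟨y, hy, hy1⟩ := hn1 n hn
    refine IsUnit.of_mul_eq_one ⟨y, hy⟩ ?_
    apply Subtype.ext
    have h1 : ((jac f' ((pt f')^[n] a')).det : ℂ) = (jac f ((pt f)^[n] a)).det := by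
      rw [hfe, hae, pt_map_iterate, jac_map, ← RingHom.mapMatrix_apply, ← RingHom.map_det]
      rfl
    push_cast
    rw [h1]
    exact hy1
  choose g' hg's hg' using functional R _ rfl (ν := Fin N)
  refine pack _ N0 L M hL fun r => ?_
  simp only [Set.mem_ofPred_eq]
  by_cases hall : ∀ g ∈ S, ∀ ℓ, ∀ t, eval ((pt f')^[N0 + r + L * t] a') (g' g ℓ) = 0
  · left
    intro t g hg
    rw [hit, ← Module.forall_dual_apply_eq_zero_iff (Subfield.closure (R : Set ℂ))]
    intro ℓ
    exact (hg' g ℓ _).1 (hall g hg ℓ t)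
  · right
    push Not at hall
    obtain ⟨g, hg, ℓ, hne⟩ := hall
    intro W hW
    rcases hM f' hsup a' hu' (N0 + r) (by omega) (g' g ℓ) ((hg's g ℓ).trans (hE' g (hS g hg)))
      with h1 | h1
    · obtain ⟨t, ht⟩ := hne
      exact absurd (h1 t) ht
    · refine h1 W fun t ht => ?_
      rw [hg']
      have h2 := hW t ht g hg
      rw [hit] at h2
      rw [h2, map_zero]

end Pool.Agent.T2H39.UE
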