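import Pool.Agent.T2H39.UE.Period

set_option autoImplicit false

/-! The uniform return theorem for a polynomial map over a noetherian ring with finite residue
rings, all points with an eventually étale orbit, and a family of polynomials. -/

namespace Pool.Agent.T2H39.UE

open MvPolynomial Pool.Agent.H936R2

variable {ι : Type} [Fintype ι] [DecidableEq ι]

omit [DecidableEq ι] in
theorem iterate_scaled' {O : Type} [CommRing O] (F : ι → MvPolynomial ι O) (π : O) (b : ι → O)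
    (k : ℕ) (h : ι → MvPolynomial ι O)
    (hh : ∀ u : ι → O, (pt F)^[k] (fun i => b i + π * u i) = fun i => b i + π * pt h u i)
    (u : ι → O) (n : ℕ) :
    (pt F)^[k * n] (fun i => b i + π * u i) = fun i => b i + π * (pt h)^[n] u i := by
  induction n with
  | zero => funext i; simp
  | succ n ih =>
    rw [Nat.mul_succ, Nat.add_comm, Function.iterate_add_apply, ih, hh,
      Function.iterate_succ_apply']

omit [Fintype ι] [DecidableEq ι] in
theorem eval_eval_C {O ε : Type} [CommRing O] (v : ε → O) (y : ι → O)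
    (Q : MvPolynomial ι (MvPolynomial ε O)) :
    eval v (eval (fun i => C (y i)) Q) = eval₂ (eval v) y Q := by
  induction Q using MvPolynomial.induction_on with
  | C a => simp
  | add p q hp hq => rw [map_add, map_add, hp, hq, eval₂_add]
  | mul_X p i hp => rw [map_mul, map_mul, hp, eval₂_mul]; simp

/-- one residue class -/
theorem one_class {O : Type} [CommRing O] [IsNoetherianRing O] (p : ℕ) [hp : Fact p.Prime]
    (K : Type) [NormedField K] [IsUltrametricDist K] [CharZero K] (j : O →+* K)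
    (hj : ∀ x, ‖j x‖ ≤ 1) (hinj : Function.Injective j) (hpK : ‖(p : K)‖ < 1)
    (F : ι → MvPolynomial ι O) (L : ℕ) (b₀ : ι → O)
    (h1 : ∀ i, (p : O) ^ 4 ∣ (pt F)^[L] b₀ i - b₀ i)
    (h2 : ∀ i j, (p : O) ^ 4 ∣ itA F b₀ L i j - (1 : Matrix ι ι O) i j)
    (ε : Type) [Finite ε] (Q : MvPolynomial ι (MvPolynomial ε O)) :
    ∃ M : ℕ, ∀ b : ι → O, (∀ i, (p : O) ^ 4 ∣ b i - b₀ i) → ∀ v : ε → O,
      (∀ t, eval₂ (eval v) ((pt F)^[L * t] b) Q = 0) ∨
        ∀ Z : Finset ℕ, (∀ t ∈ Z, eval₂ (eval v) ((pt F)^[L * t] b) Q = 0) → Z.card ≤ M := by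
  classical
  choose y hy using h1
  choose B hB using h2
  obtain ⟨w, hw⟩ := exists_scaled F ((p : O) ^ 2) b₀ L y (fun i j => (p : O) ^ 2 * B i j)
    (fun i => by rw [← pow_mul]; linear_combination hy i)
    (fun i j => by linear_combination hB i j)
  have hnoeth : IsNoetherianRing (MvPolynomial ε O) := by
    have := Fintype.ofFinite ε
    infer_instance
  obtain ⟨M, hM⟩ := zeros_bound p (fun i => map (C : O →+* MvPolynomial ε O) (w i))
    (aeval (fun i => C (C (b₀ i)) + C ((p : MvPolynomial ε O) ^ 2) * X i) Q)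
  refine ⟨M, fun b hb v => ?_⟩
  choose z hz using hb
  have hbz : b = fun i => b₀ i + (p : O) ^ 2 * ((p : O) ^ 2 * z i) := by
    funext i
    linear_combination hz i
  have hpt : (fun i => X i + C ((p : MvPolynomial ε O) ^ 2) * map (C : O →+* MvPolynomial ε O)
      (w i) : ι → MvPolynomial ι (MvPolynomial ε O)) =
      fun i => map (C : O →+* MvPolynomial ε O) (X i + C ((p : O) ^ 2) * w i) := by
    funext i
    simp only [map_add, map_mul, map_X, map_C, map_pow, map_natCast]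
  have key : ∀ t, eval v (valSeq (fun i => X i + C ((p : MvPolynomial ε O) ^ 2) *
      map (C : O →+* MvPolynomial ε O) (w i)) (fun i => C ((p : O) ^ 2 * z i))
      (aeval (fun i => C (C (b₀ i)) + C ((p : MvPolynomial ε O) ^ 2) * X i) Q) t) =
      eval₂ (eval v) ((pt F)^[L * t] b) Q := by
    intro t
    rw [hpt, valSeq, pt_map_iterate (C : O →+* MvPolynomial ε O)
      (fun i => X i + C ((p : O) ^ 2) * w i), eval_aeval_poly, ← eval_eval_C]
    refine congrArg (eval v) (congrArg (fun y => eval y Q) ?_)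
    funext i
    rw [hbz, iterate_scaled' F ((p : O) ^ 2) b₀ L _ hw]
    simp only [map_add, map_mul, eval_C, eval_X, map_pow, map_natCast]
  have hfin := hM K (j.comp (eval v)) (fun x => hj _) hpK (fun i => C ((p : O) ^ 2 * z i))
  simp only [RingHom.comp_apply, key] at hfin
  rcases hfin with h | h
  · left
    intro t
    exact hinj (by rw [h t, map_zero])
  · right
    intro Z hZ
    exact h Z fun t ht => by rw [hZ t ht, map_zero]

/-- **The uniform return theorem for one polynomial map.** -/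
theorem one_map {O : Type} [CommRing O] [IsNoetherianRing O] (p : ℕ) [hp : Fact p.Prime]
    [Finite (O ⧸ Ideal.span {(p : O) ^ 4})]
    (K : Type) [NormedField K] [IsUltrametricDist K] [CharZero K] (j : O →+* K)
    (hj : ∀ x, ‖j x‖ ≤ 1) (hinj : Function.Injective j) (hpK : ‖(p : K)‖ < 1)
    (F : ι → MvPolynomial ι O) :
    ∃ N0 L : ℕ, 0 < L ∧ ∀ (ε : Type) [Finite ε] (Q : MvPolynomial ι (MvPolynomial ε O)),
      ∃ M : ℕ, ∀ a : ι → O, (∃ n1, ∀ n, n1 ≤ n → IsUnit (jac F ((pt F)^[n] a)).det) →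
        ∀ n, N0 ≤ n → ∀ v : ε → O,
          (∀ t, eval₂ (eval v) ((pt F)^[n + L * t] a) Q = 0) ∨
          ∀ Z : Finset ℕ, (∀ t ∈ Z, eval₂ (eval v) ((pt F)^[n + L * t] a) Q = 0) →
            Z.card ≤ M := by
  classical
  obtain ⟨N0, L, hL, h⟩ := uniform_period p F
  refine ⟨N0, L, hL, fun ε _ Q => ?_⟩
  set ρ := Ideal.Quotient.mk (Ideal.span {(p : O) ^ 4}) with hρ
  have hmem : ∀ x y : O, ρ x = ρ y → (p : O) ^ 4 ∣ x - y := by
    intro x y hxy
    rw [← Ideal.mem_span_singleton]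
    exact Ideal.Quotient.eq.1 hxy
  have hcl : ∀ c : ι → O ⧸ Ideal.span {(p : O) ^ 4}, ∃ M : ℕ, ∀ b : ι → O,
      (∀ i, ρ (b i) = c i) → (∀ i, (p : O) ^ 4 ∣ (pt F)^[L] b i - b i) →
      (∀ i j, (p : O) ^ 4 ∣ itA F b L i j - (1 : Matrix ι ι O) i j) → ∀ v : ε → O,
      (∀ t, eval₂ (eval v) ((pt F)^[L * t] b) Q = 0) ∨
        ∀ Z : Finset ℕ, (∀ t ∈ Z, eval₂ (eval v) ((pt F)^[L * t] b) Q = 0) → Z.card ≤ M := by
    intro c
    by_cases hc : ∃ b₀ : ι → O, (∀ i, ρ (b₀ i) = c i) ∧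
      (∀ i, (p : O) ^ 4 ∣ (pt F)^[L] b₀ i - b₀ i) ∧
      (∀ i j, (p : O) ^ 4 ∣ itA F b₀ L i j - (1 : Matrix ι ι O) i j)
    · obtain ⟨b₀, hb0, hb1, hb2⟩ := hc
      obtain ⟨M, hM⟩ := one_class p K j hj hinj hpK F L b₀ hb1 hb2 ε Q
      exact ⟨M, fun b hb _ _ v => hM b (fun i => hmem _ _ (by rw [hb, hb0])) v⟩
    · refine ⟨0, fun b hb hb1 hb2 => absurd ⟨b, hb, hb1, hb2⟩ hc⟩
  choose M hM using hcl
  have : Fintype (ι → O ⧸ Ideal.span {(p : O) ^ 4}) := Fintype.ofFinite _
  refine ⟨Finset.univ.sup M, fun a ha n hn v => ?_⟩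
  obtain ⟨h1, h2⟩ := h a ha n hn
  have e1 : ∀ t, (pt F)^[n + L * t] a = (pt F)^[L * t] ((pt F)^[n] a) := by
    intro t
    rw [Nat.add_comm, Function.iterate_add_apply]
  simp only [e1]
  rcases hM (fun i => ρ ((pt F)^[n] a i)) ((pt F)^[n] a) (fun i => rfl) h1 h2 v with h3 | h3
  · exact Or.inl h3
  · exact Or.inr fun Z hZ => (h3 Z hZ).trans (Finset.le_sup (f := M) (Finset.mem_univ _))

end Pool.Agent.T2H39.UE
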