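import Pool.Agent.H936R2.Arc

set_option autoImplicit false

/-! A uniform bound for the number of zeros along the orbits of a polynomial map which is congruent
to the identity. -/

namespace Pool.Agent.T2H39.UE

open MvPolynomial Pool.Agent.H936R2

variable {A : Type} [CommRing A] {ι : Type} [Fintype ι] [DecidableEq ι]

/-- the ideal of the polynomials with a small value -/
def smallIdeal {K : Type} [NormedField K] [IsUltrametricDist K] (j : A →+* K)
    (hj : ∀ x, ‖j x‖ ≤ 1) (u : ι → A) (μ : ℝ) (hμ : 0 ≤ μ) : Ideal (MvPolynomial ι A) where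
  carrier := {f | ‖j (eval u f)‖ ≤ μ}
  add_mem' := by
    intro a b ha hb
    simp only [Set.mem_ofPred_eq] at *
    rw [map_add, map_add]
    exact (IsUltrametricDist.norm_add_le_max _ _).trans (max_le ha hb)
  zero_mem' := by simpa using hμ
  smul_mem' := by
    intro c x hx
    simp only [Set.mem_ofPred_eq, smul_eq_mul] at *
    rw [map_mul, map_mul, norm_mul]
    calc ‖j (eval u c)‖ * ‖j (eval u x)‖ ≤ 1 * μ :=
          mul_le_mul (hj _) hx (norm_nonneg _) zero_le_one
      _ = μ := one_mul _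

/-- the differences of the values along an orbit, with a fixed choice of the polynomials -/
theorem exists_seq (π : A) (w : ι → MvPolynomial ι A) (q : MvPolynomial ι A) :
    ∃ r : ℕ → MvPolynomial ι A, ∀ (u : ι → A) (n : ℕ),
      valSeq (fun i => X i + C π * w i) u q n =
        ∑ k ∈ Finset.range (n + 1), (n.choose k : A) * (π ^ k * eval u (r k)) := by
  choose s hs using dvd_comp_sub π w
  have key : ∀ (k : ℕ) (q : MvPolynomial ι A) (u : ι → A),
      (fwdDiff 1)^[k] (valSeq (fun i => X i + C π * w i) u q) =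
        fun n => π ^ k * valSeq (fun i => X i + C π * w i) u (s^[k] q) n := by
    intro k
    induction k with
    | zero => intro q u; funext n; simp
    | succ k ih =>
      intro q u
      rw [Function.iterate_succ_apply, valSeq_fwdDiff, hs]
      have h1 : valSeq (fun i => X i + C π * w i) u (C π * s q) =
          π • valSeq (fun i => X i + C π * w i) u (s q) := by
        funext n
        simp [valSeq]
      rw [h1, fwdDiff_iter_const_smul, ih]
      funext n
      simp only [Pi.smul_apply, smul_eq_mul, Function.iterate_succ_apply]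
      ring
  refine ⟨fun k => s^[k] q, fun u n => ?_⟩
  have h1 := shift_eq_sum_fwdDiff_iter (1 : ℕ) (valSeq (fun i => X i + C π * w i) u q) n 0
  simp only [zero_add, smul_eq_mul, mul_one] at h1
  rw [h1]
  apply Finset.sum_congr rfl
  intro k _
  rw [key k]
  simp [valSeq]

/-- A sequence of elements of a module over a noetherian ring. -/
theorem exists_stable {B : Type} [CommRing B] [IsNoetherianRing B] (r : ℕ → B) :
    ∃ m : ℕ, ∀ k, r k ∈ Ideal.span (r '' {i | i ≤ m}) := by
  let I : ℕ →o Ideal B :=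
    ⟨fun m => Ideal.span (r '' {i | i ≤ m}), fun a b hab => Ideal.span_mono
      (Set.image_mono fun i hi => le_trans (show i ≤ a from hi) hab)⟩
  obtain ⟨m, hm⟩ := monotone_stabilizes_iff_noetherian.2 (inferInstance : IsNoetherian B B) I
  refine ⟨m, fun k => ?_⟩
  rcases le_total k m with h | h
  · exact Ideal.subset_span ⟨k, h, rfl⟩
  · have h1 : I m = I k := hm k h
    change r k ∈ I m
    rw [h1]
    exact Ideal.subset_span (Set.mem_image_of_mem r (show k ∈ {i | i ≤ k} from le_refl k))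

/-- **Uniform bound for the number of zeros.** -/
theorem zeros_bound [IsNoetherianRing A] (p : ℕ) [hp : Fact p.Prime]
    (w : ι → MvPolynomial ι A) (q : MvPolynomial ι A) :
    ∃ M : ℕ, ∀ (K : Type) [NormedField K] [IsUltrametricDist K] [CharZero K] (j : A →+* K),
      (∀ x, ‖j x‖ ≤ 1) → ‖(p : K)‖ < 1 → ∀ u : ι → A,
      (∀ t, j (valSeq (fun i => X i + C ((p : A) ^ 2) * w i) u q t) = 0) ∨
        ∀ Z : Finset ℕ,
          (∀ t ∈ Z, j (valSeq (fun i => X i + C ((p : A) ^ 2) * w i) u q t) = 0) → Z.card ≤ M := by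
  classical
  obtain ⟨r, hr⟩ := exists_seq ((p : A) ^ 2) w q
  obtain ⟨m, hm⟩ := exists_stable r
  refine ⟨2 * m, ?_⟩
  intro K _ _ _ j hj hpK u
  have hp0 : (0 : ℝ) < ‖(p : K)‖ := norm_pos_iff.2 (Nat.cast_ne_zero.2 hp.out.ne_zero)
  -- the maximal norm
  obtain ⟨i0, hi0, hmax⟩ := (Finset.range (m + 1)).exists_max_image (fun i => ‖j (eval u (r i))‖)
    ⟨0, by simp⟩
  set μ : ℝ := ‖j (eval u (r i0))‖ with hμ
  have hμ0 : 0 ≤ μ := norm_nonneg _
  have hall : ∀ k, ‖j (eval u (r k))‖ ≤ μ := by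
    intro k
    have h1 : Ideal.span (r '' {i | i ≤ m}) ≤ smallIdeal j hj u μ hμ0 := by
      rw [Ideal.span_le]
      rintro _ ⟨i, hi, rfl⟩
      exact hmax i (Finset.mem_range.2 (Nat.lt_succ_of_le hi))
    exact h1 (hm k)
  -- the coefficients
  set e : ℕ → K := fun k => j (((p : A) ^ 2) ^ k * eval u (r k)) / ((k.factorial : ℕ) : K) with he
  have hs : ∀ n, j (valSeq (fun i => X i + C ((p : A) ^ 2) * w i) u q n) =
      ∑ k ∈ Finset.range (n + 1), e k * (n.descFactorial k : K) := by
    intro n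
    rw [hr, map_sum]
    apply Finset.sum_congr rfl
    intro k _
    rw [map_mul, map_natCast, he, Nat.descFactorial_eq_factorial_mul_choose]
    have : ((k.factorial : ℕ) : K) ≠ 0 := Nat.cast_ne_zero.2 (Nat.factorial_ne_zero k)
    push_cast
    field_simp
  have hfac : ∀ k : ℕ, 0 < ‖((k.factorial : ℕ) : K)‖ := fun k =>
    norm_pos_iff.2 (Nat.cast_ne_zero.2 (Nat.factorial_ne_zero k))
  have hen : ∀ k, ‖e k‖ = ‖(p : K)‖ ^ (2 * k) * ‖j (eval u (r k))‖ / ‖((k.factorial : ℕ) : K)‖ := by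
    intro k
    rw [he]
    simp only
    rw [norm_div, map_mul, norm_mul, map_pow, map_pow, map_natCast, norm_pow, norm_pow, ← pow_mul]
  have hup : ∀ k, ‖e k‖ ≤ ‖(p : K)‖ ^ k * μ := by
    intro k
    rw [hen, div_le_iff₀ (hfac k)]
    have h1 := norm_prime_pow_le_factorial p hpK k
    calc ‖(p : K)‖ ^ (2 * k) * ‖j (eval u (r k))‖ ≤ ‖(p : K)‖ ^ (2 * k) * μ :=
          mul_le_mul_of_nonneg_left (hall k) (by positivity)
      _ = ‖(p : K)‖ ^ k * μ * ‖(p : K)‖ ^ k := by ring
      _ ≤ _ := mul_le_mul_of_nonneg_left h1 (by positivity)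
  rcases hμ0.eq_or_lt with h0 | hpos
  · left
    intro t
    rw [hs]
    apply Finset.sum_eq_zero
    intro k _
    have h1 := hup k
    rw [← h0, mul_zero] at h1
    rw [norm_le_zero_iff.1 h1, zero_mul]
  right
  intro Z hZ
  by_contra hcard
  rw [not_le] at hcard
  have hlow : ‖(p : K)‖ ^ (2 * m) * μ ≤ ‖e i0‖ := by
    rw [hen, le_div_iff₀ (hfac i0)]
    have hi : i0 ≤ m := Nat.lt_succ_iff.1 (Finset.mem_range.1 hi0)
    calc ‖(p : K)‖ ^ (2 * m) * μ * ‖((i0.factorial : ℕ) : K)‖
        ≤ ‖(p : K)‖ ^ (2 * m) * μ * 1 :=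
          mul_le_mul_of_nonneg_left (IsUltrametricDist.norm_natCast_le_one K _) (by positivity)
      _ = ‖(p : K)‖ ^ (2 * m) * μ := mul_one _
      _ ≤ ‖(p : K)‖ ^ (2 * i0) * μ := by
          apply mul_le_mul_of_nonneg_right _ hμ0
          exact pow_le_pow_of_le_one hp0.le hpK.le (by omega)
  have hhigh : ∀ k, 2 * m < k → ‖e k‖ < ‖(p : K)‖ ^ (2 * m) * μ := by
    intro k hk
    refine (hup k).trans_lt ?_
    apply mul_lt_mul_of_pos_right _ hpos
    exact pow_lt_pow_right_of_lt_one₀ hp0 hpK hk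
  -- the last index of maximal norm
  obtain ⟨k1, hk1, hk1max⟩ := (Finset.range (2 * m + 1)).exists_max_image (fun k => ‖e k‖)
    ⟨0, by simp⟩
  obtain ⟨J, hJ, hJmax⟩ := ((Finset.range (2 * m + 1)).filter
    (fun k => ‖e k1‖ ≤ ‖e k‖)).exists_max_image (fun k => k) ⟨k1, by simp [hk1]⟩
  rw [Finset.mem_filter, Finset.mem_range] at hJ
  have hi0' : i0 ∈ Finset.range (2 * m + 1) := by
    rw [Finset.mem_range] at *
    omega
  have hlowJ : ‖(p : K)‖ ^ (2 * m) * μ ≤ ‖e J‖ := (hlow.trans (hk1max i0 hi0')).trans hJ.2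
  have hlast : ∀ k, J < k → ‖e k‖ < ‖e J‖ := by
    intro k hk
    by_cases hkm : k ≤ 2 * m
    · by_contra hcon
      rw [not_lt] at hcon
      have := hJmax k (by
        rw [Finset.mem_filter, Finset.mem_range]
        exact ⟨by omega, hJ.2.trans hcon⟩)
      omega
    · exact (hhigh k (by omega)).trans_le hlowJ
  obtain ⟨Z', hZ', hZ'c⟩ := Finset.exists_subset_card_eq (s := Z) (n := J + 1) (by omega)
  obtain ⟨m', z, hrel⟩ := newton_relation e
    (fun n => j (valSeq (fun i => X i + C ((p : A) ^ 2) * w i) u q n)) hs Z' J hZ'c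
    fun n hn => hZ n (hZ' hn)
  have hposJ : 0 < ‖e J‖ := lt_of_lt_of_le (by positivity) hlowJ
  have hlt : ‖e J‖ < ‖e J‖ := by
    nth_rewrite 1 [hrel]
    rw [norm_neg]
    by_cases hne' : (Finset.Ioc J m').Nonempty
    · obtain ⟨k, hk, hle⟩ := IsUltrametricDist.exists_norm_finsetSum_le_of_nonempty hne'
        (fun k => e k * (z k : K))
      refine lt_of_le_of_lt hle ?_
      rw [norm_mul]
      calc ‖e k‖ * ‖(z k : K)‖ ≤ ‖e k‖ * 1 :=
            mul_le_mul_of_nonneg_left (norm_intCast_le _) (norm_nonneg _)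
        _ = ‖e k‖ := mul_one _
        _ < ‖e J‖ := hlast k (Finset.mem_Ioc.1 hk).1
    · rw [Finset.not_nonempty_iff_eq_empty] at hne'
      rw [hne']
      simpa using hposJ
  exact lt_irrefl _ hlt

end Pool.Agent.T2H39.UE
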